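import Mathlib
import Pool.Agent.MP_542436_nt.Sp.Spec

set_option autoImplicit false

namespace Pool.Agent.MP_542436_nt.H93

open Polynomial NumberField Finset Pool.Agent.MP_542436_nt.Sp

/-- More unknowns than equations over a domain. -/
theorem ex_ker (R M κ : Type) [CommRing R] [IsDomain R] [AddCommGroup M] [Module R M] [Fintype κ]
    (n : ℕ) (hM : Module.rank R M = n) (hκ : 2 * n < Fintype.card κ) (w0 w1 : κ → M) :
    ∃ Φ : κ → R, Φ ≠ 0 ∧ ∑ k, Φ k • w0 k = 0 ∧ ∑ k, Φ k • w1 k = 0 := by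
  classical
  by_contra hcon
  let L0 : (κ → R) →ₗ[R] M := Fintype.linearCombination R w0
  let L1 : (κ → R) →ₗ[R] M := Fintype.linearCombination R w1
  have hinj : Function.Injective (L1.domRestrict (LinearMap.ker L0)) := by
    rw [injective_iff_map_eq_zero]
    rintro ⟨Φ, hΦ⟩ h1
    by_contra hne
    refine hcon ⟨Φ, fun h => hne (Subtype.ext h), ?_, ?_⟩
    · simpa [L0, Fintype.linearCombination_apply] using hΦ
    · simpa [L1, Fintype.linearCombination_apply] using h1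
  have h1 : Module.rank R (LinearMap.ker L0) ≤ n := hM ▸ LinearMap.rank_le_of_injective _ hinj
  have h2 : Module.rank R (LinearMap.range L0) ≤ n := hM ▸ Submodule.rank_le _
  have h3 := LinearMap.rank_range_add_rank_ker L0
  rw [rank_fun'] at h3
  have h4 : (Fintype.card κ : Cardinal) ≤ (n : Cardinal) + n := h3 ▸ add_le_add h2 h1
  have h5 : Fintype.card κ ≤ n + n := by exact_mod_cast h4
  omega

attribute [local instance] MvPolynomial.algebraMvPolynomial in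
theorem exP (K : Type) [Field K] [NumberField K] (θ : K) (h : St 7 θ) :
    ∃ Φ, Φ ≠ 0 ∧ KerP θ Φ := by
  have hr : Module.rank (MvPolynomial (Fin 2 × Fin 7) ℤ) (MvPolynomial (Fin 2 × Fin 7) K) =
      (7 : ℕ) := by
    rw [rank_mvPolynomial_mvPolynomial, Cardinal.lift_id, ← IsLocalization.rank_eq ℚ (nonZeroDivisors ℤ) le_rfl,
      ← Module.finrank_eq_rank, h.rk]
  let w : ℕ → Fin 5 × Fin 3 → MvPolynomial (Fin 2 × Fin 7) K := fun i k =>
    (((k.1 : ℕ).choose i : MvPolynomial (Fin 2 × Fin 7) K) *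
      (-zz θ 1) ^ ((k.1 : ℕ) - i) * zz θ 0 ^ (4 - (k.1 : ℕ))) * MvPolynomial.C θ ^ (k.2 : ℕ)
  obtain ⟨Φ, h0, h1, h2⟩ := ex_ker _ _ (Fin 5 × Fin 3) 7 hr (by simp) (w 0) (w 1)
  refine ⟨Φ, h0, fun i hi => ?_⟩
  have key : ∀ i, ∑ k, Φ k • w i k = 0 → ∑ k : Fin 5 × Fin 3,
      MvPolynomial.map (Int.castRingHom K) (Φ k) *
        (((k.1 : ℕ).choose i : MvPolynomial (Fin 2 × Fin 7) K) *
      (-zz θ 1) ^ ((k.1 : ℕ) - i) * zz θ 0 ^ (4 - (k.1 : ℕ))) * MvPolynomial.C θ ^ (k.2 : ℕ) = 0 := by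
    intro i hi
    rw [← hi]
    refine Finset.sum_congr rfl fun k _ => ?_
    rw [Algebra.smul_def, mul_assoc]
    rfl
  interval_cases i
  · exact key 0 h1
  · exact key 1 h2

/-- The polynomial with prescribed coefficients. -/
noncomputable def pol (φ : Fin 5 × Fin 3 → ℂ) : ℂ[X][X] :=
  ∑ k : Fin 5 × Fin 3, monomial (k.2 : ℕ) (monomial (k.1 : ℕ) (φ k))

theorem cf_pol (φ : Fin 5 × Fin 3 → ℂ) (i c : ℕ) :
    cf (pol φ) i c = ∑ k : Fin 5 × Fin 3, if (k.1 : ℕ) = i ∧ (k.2 : ℕ) = c then φ k else 0 := by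
  unfold cf pol
  rw [finsetSum_coeff, finsetSum_coeff]
  refine Finset.sum_congr rfl fun k _ => ?_
  rw [coeff_monomial]
  by_cases h2 : (k.2 : ℕ) = c
  · rw [if_pos h2, coeff_monomial]
    simp [h2]
  · simp [h2]

theorem cf_pol' (φ : Fin 5 × Fin 3 → ℂ) (k : Fin 5 × Fin 3) : cf (pol φ) k.1 k.2 = φ k := by
  rw [cf_pol, Finset.sum_eq_single k]
  · simp
  · intro b _ hb
    rw [if_neg]
    rintro ⟨h1, h2⟩
    exact hb (Prod.ext (Fin.ext h1) (Fin.ext h2))
  · simp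

theorem dg_pol (φ : Fin 5 × Fin 3 → ℂ) : Dg 5 3 (pol φ) := by
  intro i c h
  rw [cf_pol] at h
  obtain ⟨k, -, hk⟩ := Finset.exists_ne_zero_of_sum_ne_zero h
  by_cases h1 : (k.1 : ℕ) = i ∧ (k.2 : ℕ) = c
  · exact ⟨h1.1 ▸ k.1.2, h1.2 ▸ k.2.2⟩
  · exact absurd (if_neg h1) hk

theorem fin_Vs {ι : Type} (r : ι → ℕ) (ω θ : ι → ℂ) : Module.Finite ℂ (Vs 5 3 r ω θ) := by
  let c : Vs 5 3 r ω θ →ₗ[ℂ] (Fin 5 × Fin 3 → ℂ) :=
    { toFun := fun f k => cf f.1 k.1 k.2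
      map_add' := fun f g => by
        ext k
        simp [cf]
      map_smul' := fun a f => by
        ext k
        simp [cf] }
  refine Module.Finite.of_injective c ?_
  rw [injective_iff_map_eq_zero]
  intro f hf
  apply Subtype.ext
  ext k i
  by_contra hne
  have h1 := f.2.1 i k (by simpa [cf] using hne)
  have := congrFun hf (⟨i, h1.1⟩, ⟨k, h1.2⟩)
  exact hne (by simpa [c, cf] using this)

theorem ex_k0 {ι : Type} (r : ι → ℕ) (ω θ : ι → ℂ) (h : Module.finrank ℂ (Vs 5 3 r ω θ) ≤ 1) :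
    ∃ k0 : Fin 5 × Fin 3, ∀ f ∈ Vs 5 3 r ω θ, cf f k0.1 k0.2 = 0 → f = 0 := by
  have := fin_Vs r ω θ
  have : Module.Free ℂ (Vs 5 3 r ω θ) := Module.Free.of_divisionRing ℂ (Vs 5 3 r ω θ)
  obtain ⟨v, hv⟩ := (finrank_le_one_iff (K := ℂ) (V := Vs 5 3 r ω θ)).1 h
  by_cases hv0 : ∃ i k, cf v.1 i k ≠ 0
  · obtain ⟨i, k, hik⟩ := hv0
    have h1 := v.2.1 i k hik
    refine ⟨(⟨i, h1.1⟩, ⟨k, h1.2⟩), fun f hf h0 => ?_⟩
    obtain ⟨c, hc⟩ := hv ⟨f, hf⟩
    have h2 : f = c • v.1 := (congrArg Subtype.val hc).symm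
    have h3 : c * cf v.1 i k = 0 := by
      rw [h2] at h0
      simpa [cf] using h0
    rw [h2, (mul_eq_zero.1 h3).resolve_right hik, zero_smul]
  · refine ⟨(0, 0), fun f hf _ => ?_⟩
    obtain ⟨c, hc⟩ := hv ⟨f, hf⟩
    have h2 : f = c • v.1 := (congrArg Subtype.val hc).symm
    have h3 : v.1 = 0 := by
      ext k i
      by_contra hne
      exact hv0 ⟨i, k, by simpa [cf] using hne⟩
    rw [h2, h3, smul_zero]

theorem tc_pol (φ : Fin 5 × Fin 3 → ℂ) (ω θ : ℂ) (i : ℕ) :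
    tc 5 3 ω θ (pol φ) i 0 = ∑ k : Fin 5 × Fin 3,
      φ k * (((k.1 : ℕ).choose i : ℂ) * ω ^ ((k.1 : ℕ) - i)) * θ ^ (k.2 : ℕ) := by
  unfold tc
  rw [Fintype.sum_prod_type, Finset.sum_range]
  refine Finset.sum_congr rfl fun a _ => ?_
  rw [Finset.sum_range]
  refine Finset.sum_congr rfl fun c _ => ?_
  rw [← cf_pol' φ (a, c)]
  simp

theorem uniq (hB : BaseStmt) (hI : InjStmt) (hE : ExStmt) (K : Type) [Field K] [NumberField K]
    (θ : K) (h : St 7 θ) :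
    ∃ Δ : MvPolynomial (Fin 2 × Fin 7) ℂ, Δ ≠ 0 ∧ ∀ u : Fin 2 × Fin 7 → ℤ,
      MvPolynomial.eval (fun k => ((u k : ℤ) : ℂ)) Δ ≠ 0 → ∀ φ ψ : Fin 5 × Fin 3 → ℤ,
        KerEq θ (z0 θ u) (z1 θ u) (fun k => (φ k : K)) →
        KerEq θ (z0 θ u) (z1 θ u) (fun k => (ψ k : K)) → ∀ k k', φ k * ψ k' = φ k' * ψ k := by
  classical
  have hc : Fintype.card (K →+* ℂ) = 7 := by rw [Embeddings.card, h.rk]
  let e : Fin 7 ≃ (K →+* ℂ) := (Fintype.equivFinOfCardEq hc).symm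
  let t : Fin 7 → ℂ := fun j => e j θ
  have ht : Function.Injective t := fun a b hab => e.injective (h.gen hab)
  obtain ⟨ω, hω⟩ := (hE t ht).2
  obtain ⟨k0, hk0⟩ := ex_k0 _ ω t hω
  obtain ⟨c, hcv⟩ : ∃ c : Fin 7 → ℂ, (Matrix.vandermonde t).mulVec c = -ω :=
    Matrix.mulVec_surjective_iff_isUnit.2 ((Matrix.isUnit_iff_isUnit_det _).2
      (isUnit_iff_ne_zero.2 (Matrix.det_vandermonde_ne_zero_iff.2 ht))) _
  let ζ : Fin 2 → Fin 7 → MvPolynomial (Fin 2 × Fin 7) ℂ := fun a j =>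
    ∑ i : Fin 7, MvPolynomial.X (a, i) * MvPolynomial.C (t j ^ (i : ℕ))
  let A : Matrix (Option (Fin 7 × Fin 2)) (Fin 5 × Fin 3) (MvPolynomial (Fin 2 × Fin 7) ℂ) :=
    fun ρ k => ρ.elim (if k = k0 then 1 else 0) fun ji =>
      (((k.1 : ℕ).choose ji.2 : MvPolynomial (Fin 2 × Fin 7) ℂ) *
        (-ζ 1 ji.1) ^ ((k.1 : ℕ) - ji.2) * ζ 0 ji.1 ^ (4 - (k.1 : ℕ))) *
          MvPolynomial.C (t ji.1) ^ (k.2 : ℕ)
  have hrow0 : ∀ (E : MvPolynomial (Fin 2 × Fin 7) ℂ →ₐ[ℂ] ℂ) (φ : Fin 5 × Fin 3 → ℂ),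
      (A.map E).mulVec φ none = φ k0 := by
    intro E φ
    simp only [Matrix.mulVec, dotProduct, Matrix.map_apply, A, Option.elim]
    rw [Finset.sum_eq_single k0]
    · simp
    · intro b _ hb
      simp [hb]
    · simp
  have hrow : ∀ (E : MvPolynomial (Fin 2 × Fin 7) ℂ →ₐ[ℂ] ℂ) (φ : Fin 5 × Fin 3 → ℂ) (j : Fin 7)
      (i : Fin 2), (A.map E).mulVec φ (some (j, i)) = ∑ k : Fin 5 × Fin 3,
        φ k * (((k.1 : ℕ).choose i : ℂ) * (-E (ζ 1 j)) ^ ((k.1 : ℕ) - i) *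
          E (ζ 0 j) ^ (4 - (k.1 : ℕ))) * t j ^ (k.2 : ℕ) := by
    intro E φ j i
    simp only [Matrix.mulVec, dotProduct, Matrix.map_apply, A, Option.elim]
    refine Finset.sum_congr rfl fun k _ => ?_
    simp only [map_mul, map_pow, map_neg, map_natCast, MvPolynomial.algHom_C, Algebra.algebraMap_self,
      RingHom.id_apply]
    ring
  have hζ : ∀ (v : Fin 2 × Fin 7 → ℂ) (a : Fin 2) (j : Fin 7),
      MvPolynomial.aeval v (ζ a j) = ∑ i : Fin 7, v (a, i) * t j ^ (i : ℕ) := by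
    intro v a j
    simp [ζ]
  let v0 : Fin 2 × Fin 7 → ℂ := fun k => if k.1 = 0 then (if k.2 = 0 then 1 else 0) else c k.2
  have h0 : Function.Injective (A.map (MvPolynomial.aeval v0)).mulVec := by
    have : ∀ φ, (A.map (MvPolynomial.aeval v0)).mulVec φ = 0 → φ = 0 := by
      intro φ hφ
      have hm : pol φ ∈ Vs 5 3 (fun _ => 2) ω t := by
        refine ⟨dg_pol φ, fun j => ?_⟩
        rw [hB.ord_iff ℂ 5 3 _ _ _ _ (dg_pol φ)]
        intro i j' hij
        have hij : i + 2 * j' < 2 := hij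
        obtain rfl : j' = 0 := by omega
        have h1 := congrFun hφ (some (j, ⟨i, by omega⟩))
        rw [hrow, hζ, hζ] at h1
        have e0 : ∑ i : Fin 7, v0 (0, i) * t j ^ (i : ℕ) = 1 := by simp [v0]
        have e1 : ∑ i : Fin 7, v0 (1, i) * t j ^ (i : ℕ) = -ω j := by
          have := congrFun hcv j
          simp only [Matrix.mulVec, dotProduct, Matrix.vandermonde_apply, Pi.neg_apply] at this
          rw [← this]
          refine Finset.sum_congr rfl fun i _ => ?_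
          simp [v0, mul_comm]
        rw [e0, e1] at h1
        rw [tc_pol]
        simpa using h1
      have h2 := congrFun hφ none
      rw [hrow0] at h2
      have h3 := hk0 _ hm (by rw [cf_pol']; exact h2)
      ext k
      rw [← cf_pol' φ k, h3]
      simp [cf]
    intro φ ψ hφ
    rw [← sub_eq_zero]
    apply this
    rw [Matrix.mulVec_sub, hφ, sub_self]
  obtain ⟨Δ, hΔ0, hΔ⟩ := hI _ _ _ A _ h0
  refine ⟨Δ, fun h => hΔ0 (by rw [h, map_zero]), fun u hu φ ψ hφ hψ => ?_⟩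
  have hinj := hΔ (MvPolynomial.aeval (fun k => ((u k : ℤ) : ℂ))) (by
    rw [MvPolynomial.aeval_eq_eval]
    exact hu)
  have hker : ∀ χ : Fin 5 × Fin 3 → ℤ, KerEq θ (z0 θ u) (z1 θ u) (fun k => (χ k : K)) →
      χ k0 = 0 → χ = 0 := by
    intro χ hχ hz
    have : (fun k => (χ k : ℂ)) = 0 := by
      apply hinj
      rw [Matrix.mulVec_zero]
      funext ρ
      rcases ρ with _ | ⟨j, i⟩
      · rw [hrow0]
        simp [hz]
      · rw [hrow, hζ, hζ]
        have h1 := congrArg (e j) (hχ i i.2)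
        simp only [map_sum, map_mul, map_pow, map_neg, map_natCast, map_intCast, map_zero, z0, z1,
          el] at h1
        exact h1
    funext k
    have := congrFun this k
    simpa using this
  intro k k'
  by_cases hz : φ k0 = 0
  · rw [hker φ hφ hz]
    simp
  · have h1 : (fun k => ψ k0 * φ k - φ k0 * ψ k) = 0 := by
      apply hker
      · intro i hi
        have a1 := hφ i hi
        have a2 := hψ i hi
        have : ∀ k : Fin 5 × Fin 3, ∀ x y : K, ((ψ k0 * φ k - φ k0 * ψ k : ℤ) : K) * x * y =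
            (ψ k0 : K) * ((φ k : K) * x * y) - (φ k0 : K) * ((ψ k : K) * x * y) := by
          intro k x y
          push_cast
          ring
        simp only [this, Finset.sum_sub_distrib, ← Finset.mul_sum]
        rw [a1, a2]
        simp
      · ring
    have a1 := congrFun h1 k
    have a2 := congrFun h1 k'
    simp only [Pi.zero_apply] at a1 a2
    apply mul_left_cancel₀ hz
    linear_combination φ k' * a1 - φ k * a2

theorem kerA (hB : BaseStmt) (hI : InjStmt) (hE : ExStmt) : KerAStmt :=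
  fun K _ _ θ h => ⟨exP K θ h, uniq hB hI hE K θ h⟩

end Pool.Agent.MP_542436_nt.H93
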